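import Pool.Agent.W2helper31.GP.Stm2

/-!
# Project GP: an upper bound for `log Γ(1/2 + ν)`
-/

set_option autoImplicit false

open Filter Topology

namespace Pool.Agent.W2helper47.GP

open Pool.Agent.W2helper31.GP

lemma harm_odd (n : ℕ) : ∑ m ∈ Finset.range (n + 1), (2 / (2 * (m : ℝ) + 1)) =
    2 * ((harmonic (2 * n + 2) : ℚ) : ℝ) - ((harmonic (n + 1) : ℚ) : ℝ) := by
  induction n with
  | zero =>
    norm_num [harmonic, Finset.sum_range_succ]
  | succ n ih =>
    rw [Finset.sum_range_succ, ih]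
    have h1 : 2 * (n + 1) + 2 = (2 * n + 2) + 1 + 1 := by ring
    rw [h1, harmonic_succ (2 * n + 2 + 1), harmonic_succ (2 * n + 2), harmonic_succ (n + 1)]
    push_cast
    have h2 : (2 * (n : ℝ) + 2 + 1) ≠ 0 := by positivity
    have h3 : (2 * (n : ℝ) + 2 + 1 + 1) ≠ 0 := by positivity
    have h4 : ((n : ℝ) + 1 + 1) ≠ 0 := by positivity
    field_simp
    ring

lemma log_sub_harm (n : ℕ) (hn : 1 ≤ n) :
    Real.log n - ∑ m ∈ Finset.range (n + 1), (2 / (2 * (m : ℝ) + 1)) ≤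
      -(Real.eulerMascheroniConstant + 2 * Real.log 2) := by
  rw [harm_odd]
  have h1 := Real.eulerMascheroniConstant_lt_eulerMascheroniSeq' (2 * n + 2)
  have h2 := Real.eulerMascheroniSeq_lt_eulerMascheroniConstant (n + 1)
  rw [Real.eulerMascheroniSeq', if_neg (by omega)] at h1
  rw [Real.eulerMascheroniSeq] at h2
  push_cast at h1 h2
  have hn' : (1 : ℝ) ≤ n := by exact_mod_cast hn
  have h3 : Real.log (2 * (n : ℝ) + 2) = Real.log 2 + Real.log ((n : ℝ) + 1) := by
    rw [← Real.log_mul (by norm_num) (by positivity)]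
    congr 1
    ring
  have h4 : Real.log n + Real.log ((n : ℝ) + 1 + 1) ≤ 2 * Real.log ((n : ℝ) + 1) := by
    rw [← Real.log_mul (by positivity) (by positivity), ← Real.log_rpow (by positivity)]
    apply Real.log_le_log (by positivity)
    have : ((n : ℝ) + 1) ^ (2 : ℝ) = ((n : ℝ) + 1) ^ 2 := by norm_cast
    rw [this]
    nlinarith
  rw [h3] at h1
  linarith

lemma phi_le {z : ℝ} (hz : 0 ≤ z) : z - Real.log (1 + z) ≤ z ^ 2 / 2 := by
  have h := Real.le_log_one_add_of_nonneg hz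
  have h2 : z - 2 * z / (z + 2) ≤ z ^ 2 / 2 := by
    have h3 : z - 2 * z / (z + 2) = z ^ 2 / (z + 2) := by
      field_simp
      ring
    rw [h3]
    apply div_le_div_of_nonneg_left (by positivity) (by norm_num)
    linarith
  linarith

lemma sum_phi {nu : ℝ} (hnu : 0 ≤ nu) (n : ℕ) (hn : 1 ≤ n) :
    ∑ m ∈ Finset.range (n + 1), (2 * nu / (2 * (m : ℝ) + 1) -
        Real.log (1 + 2 * nu / (2 * (m : ℝ) + 1))) ≤
      (2 * nu - Real.log (1 + 2 * nu)) + (2 * nu / 3 - Real.log (1 + 2 * nu / 3)) + nu ^ 2 / 4 -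
        nu ^ 2 / (2 * ((n : ℝ) + 1)) := by
  induction n, hn using Nat.le_induction with
  | base =>
    rw [Finset.sum_range_succ, Finset.sum_range_succ, Finset.sum_range_zero]
    norm_num
  | succ n hn ih =>
    rw [Finset.sum_range_succ]
    have h1 := phi_le (z := 2 * nu / (2 * ((n + 1 : ℕ) : ℝ) + 1)) (by positivity)
    have h2 : (2 * nu / (2 * ((n + 1 : ℕ) : ℝ) + 1)) ^ 2 / 2 ≤
        nu ^ 2 / (2 * ((n : ℝ) + 1)) - nu ^ 2 / (2 * (((n + 1 : ℕ) : ℝ) + 1)) := by
      push_cast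
      have h3 : nu ^ 2 / (2 * ((n : ℝ) + 1)) - nu ^ 2 / (2 * ((n : ℝ) + 1 + 1)) =
          nu ^ 2 * (1 / (2 * ((n : ℝ) + 1) * ((n : ℝ) + 2))) := by
        field_simp
        ring
      have h4 : (2 * nu / (2 * ((n : ℝ) + 1) + 1)) ^ 2 / 2 =
          nu ^ 2 * (2 / (2 * (n : ℝ) + 3) ^ 2) := by
        field_simp
        ring
      rw [h3, h4]
      apply mul_le_mul_of_nonneg_left _ (by positivity)
      rw [div_le_div_iff₀ (by positivity) (by positivity)]
      nlinarith
    linarith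

lemma diff_seq {nu : ℝ} (hnu : 0 ≤ nu) (n : ℕ) :
    Real.BohrMollerup.logGammaSeq (1 / 2 + nu) n - Real.BohrMollerup.logGammaSeq (1 / 2) n =
      nu * (Real.log n - ∑ m ∈ Finset.range (n + 1), (2 / (2 * (m : ℝ) + 1))) +
      ∑ m ∈ Finset.range (n + 1), (2 * nu / (2 * (m : ℝ) + 1) -
        Real.log (1 + 2 * nu / (2 * (m : ℝ) + 1))) := by
  unfold Real.BohrMollerup.logGammaSeq
  have h1 : ∀ m : ℕ, Real.log (1 / 2 + nu + m) = Real.log (1 / 2 + m) +
      Real.log (1 + 2 * nu / (2 * (m : ℝ) + 1)) := by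
    intro m
    rw [← Real.log_mul (by positivity) (by positivity)]
    congr 1
    field_simp
    ring
  simp only [h1, Finset.sum_add_distrib, Finset.sum_sub_distrib]
  have h2 : ∑ m ∈ Finset.range (n + 1), (2 * nu / (2 * (m : ℝ) + 1)) =
      nu * ∑ m ∈ Finset.range (n + 1), (2 / (2 * (m : ℝ) + 1)) := by
    rw [Finset.mul_sum]
    refine Finset.sum_congr rfl fun m _ => ?_
    ring
  rw [h2]
  ring

/-- PIECE GAM -/
theorem GAM_ok : P_GAM := by
  intro nu hnu
  have h1 := Real.BohrMollerup.tendsto_log_gamma (x := 1 / 2 + nu) (by positivity)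
  have h2 := Real.BohrMollerup.tendsto_log_gamma (x := 1 / 2) (by positivity)
  have h3 := h1.sub h2
  have h4 : Real.log (Real.Gamma (1 / 2 + nu)) - Real.log (Real.Gamma (1 / 2)) ≤
      -(Real.eulerMascheroniConstant + 2 * Real.log 2) * nu
      + (2 * nu - Real.log (1 + 2 * nu)) + (2 * nu / 3 - Real.log (1 + 2 * nu / 3)) + nu ^ 2 / 4 := by
    refine le_of_tendsto h3 ?_
    filter_upwards [eventually_ge_atTop 1] with n hn
    rw [diff_seq hnu]
    have h5 := sum_phi hnu n hn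
    have h6 := mul_le_mul_of_nonneg_left (log_sub_harm n hn) hnu
    have h7 : 0 ≤ nu ^ 2 / (2 * ((n : ℝ) + 1)) := by positivity
    linarith
  rw [Real.Gamma_one_half_eq] at h4
  linarith

end Pool.Agent.W2helper47.GP
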